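import Pool.Agent.R431.P.Quad

/-!
Products of Jacobi symbols.
-/

set_option autoImplicit false

open NumberField IsDedekindDomain WithZero ZMod
open scoped NumberTheorySymbols

namespace Pool.Agent.R431.P

lemma jac_prod (a : ℤ) (s : Finset ℕ) (hs : ∀ i ∈ s, i ≠ 0) :
    jacobiSym a (∏ i ∈ s, i) = ∏ i ∈ s, jacobiSym a i := by
  classical
  induction s using Finset.induction_on with
  | empty => rw [Finset.prod_empty, Finset.prod_empty]; exact jacobiSym.one_right a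
  | insert i t hi ih =>
    rw [Finset.prod_insert hi, Finset.prod_insert hi, jacobiSym.mul_right' a
      (hs i (Finset.mem_insert_self i t)) (Finset.prod_ne_zero_iff.2 fun j hj =>
        hs j (Finset.mem_insert_of_mem hj)), ih fun j hj => hs j (Finset.mem_insert_of_mem hj)]

lemma jac_sqf (a : ℤ) {n : ℕ} (hn : Squarefree n) :
    ∏ l ∈ n.primeFactors, jacobiSym a l = jacobiSym a n := by
  rw [← jac_prod a _ fun i hi => (Nat.prime_of_mem_primeFactors hi).ne_zero,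
    Nat.prod_primeFactors_of_squarefree hn]

/-- all symbols are one at the prime divisors -/
lemma jac_one (a : ℤ) {n : ℕ} (hn : n ≠ 0) (h : ∀ p : ℕ, p.Prime → p ∣ n → jacobiSym a p = 1) :
    jacobiSym a n = 1 := by
  induction n using Nat.recOnMul with
  | zero => exact absurd rfl hn
  | one => exact jacobiSym.one_right a
  | prime p hp => exact h p hp dvd_rfl
  | mul x y hx hy =>
    have hx0 : x ≠ 0 := left_ne_zero_of_mul hn
    have hy0 : y ≠ 0 := right_ne_zero_of_mul hn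
    rw [jacobiSym.mul_right' a hx0 hy0, hx hx0 fun p hp hd => h p hp (hd.mul_right _),
      hy hy0 fun p hp hd => h p hp (hd.mul_left _), mul_one]

/-- the sign of `d`, for `d = 1` mod `4` squarefree -/
lemma prod_neg_one {d : ℤ} (hd : Squarefree d) (h4 : d % 4 = 1) :
    ∏ l ∈ d.natAbs.primeFactors, jacobiSym (-1) l = d.sign := by
  rw [jac_sqf _ (Int.squarefree_natAbs.2 hd)]
  have hodd : Odd d.natAbs := by
    rw [Int.natAbs_odd, Int.odd_iff]
    omega
  rw [jacobiSym.at_neg_one hodd]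
  rcases lt_or_ge d 0 with h | h
  · rw [χ₄_nat_three_mod_four (by omega), Int.sign_eq_neg_one_of_neg h]
  · rw [χ₄_nat_one_mod_four (by omega), Int.sign_eq_one_of_pos (by omega)]

/-- for `X_0(11)` -/
theorem eleven {d : ℤ} (hd : Squarefree d) (h4 : d % 4 = 1) (h11 : ¬ (11 : ℤ) ∣ d)
    (h : ∀ l : ℕ, l.Prime → l ∣ d.natAbs → jacobiSym (-11) l = 1) :
    jacobiSym d 11 = d.sign := by
  have hn0 : d.natAbs ≠ 0 := Int.natAbs_ne_zero.2 hd.ne_zero
  have hodd : Odd d.natAbs := by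
    rw [Int.natAbs_odd, Int.odd_iff]
    omega
  have h1 := jac_one (-11) hn0 h
  rw [jacobiSym.neg 11 hodd] at h1
  have h11' : Odd 11 := by decide
  have hrec := jacobiSym.quadratic_reciprocity (a := 11) (b := d.natAbs) h11' hodd
  rcases lt_or_ge d 0 with hneg | hpos
  · have e1 : χ₄ (d.natAbs : ZMod 4) = -1 := χ₄_nat_three_mod_four (by omega)
    have hr := jacobiSym.quadratic_reciprocity_three_mod_four (a := 11) (b := d.natAbs) (by norm_num)
      (by omega)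
    have hr' : jacobiSym 11 d.natAbs = - jacobiSym (d.natAbs : ℤ) 11 := by exact_mod_cast hr
    rw [e1, hr'] at h1
    have e2 : d = -(d.natAbs : ℤ) := by omega
    rw [Int.sign_eq_neg_one_of_neg hneg]
    conv_lhs => rw [e2]
    rw [jacobiSym.neg _ h11']
    have e3 : χ₄ ((11 : ℕ) : ZMod 4) = -1 := χ₄_nat_three_mod_four (by norm_num)
    rw [e3]
    linarith
  · have e1 : χ₄ (d.natAbs : ZMod 4) = 1 := χ₄_nat_one_mod_four (by omega)
    have hr := jacobiSym.quadratic_reciprocity_one_mod_four' (a := 11) (b := d.natAbs) h11'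
      (by omega)
    have hr' : jacobiSym 11 d.natAbs = jacobiSym (d.natAbs : ℤ) 11 := by exact_mod_cast hr
    rw [e1, hr'] at h1
    have e2 : (d.natAbs : ℤ) = d := by omega
    rw [e2] at h1
    rw [Int.sign_eq_one_of_pos (by omega)]
    linarith

/-- the general case: `d` is positive -/
theorem pos_of {D d : ℤ} (hD : D < 0) (hd : Squarefree d) (h4 : d % 4 = 1)
    (h8 : (2 : ℤ) ∣ D → d % 8 = 1)
    (h : ∀ l : ℕ, l.Prime → l ∣ d.natAbs → jacobiSym D l = 1)
    (h' : ∀ p : ℕ, p.Prime → p ≠ 2 → (p : ℤ) ∣ D → jacobiSym d p = 1) : 0 < d := by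
  by_contra hneg
  have hneg : d < 0 := by omega
  have hn0 : d.natAbs ≠ 0 := Int.natAbs_ne_zero.2 hd.ne_zero
  have hodd : Odd d.natAbs := by
    rw [Int.natAbs_odd, Int.odd_iff]
    omega
  have h1 := jac_one D hn0 h
  obtain ⟨a, m, hm, hDm⟩ := Nat.exists_eq_two_pow_mul_odd (n := D.natAbs) (by omega)
  have e1 : D = -((2 : ℤ) ^ a * (m : ℤ)) := by
    have : (D.natAbs : ℤ) = (2 : ℤ) ^ a * (m : ℤ) := by exact_mod_cast hDm
    omega
  have hm0 : m ≠ 0 := by
    rintro rfl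
    exact absurd hm (by decide)
  have hc3 : d.natAbs % 4 = 3 := by omega
  have e2 : χ₄ (d.natAbs : ZMod 4) = -1 := χ₄_nat_three_mod_four hc3
  rw [e1, jacobiSym.neg _ hodd, jacobiSym.mul_left, e2] at h1
  -- the power of two
  have e3 : jacobiSym ((2 : ℤ) ^ a) d.natAbs = 1 := by
    rcases Nat.eq_zero_or_pos a with rfl | ha
    · rw [pow_zero, jacobiSym.one_left]
    · have h2 : (2 : ℤ) ∣ D := by
        rw [e1]
        exact Dvd.dvd.neg_right (Dvd.dvd.mul_right (dvd_pow_self 2 ha.ne') _)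
      have h3 := h8 h2
      rw [jacobiSym.pow_left, jacobiSym.at_two hodd]
      have h5 : d.natAbs % 8 = 7 := by omega
      have h6 : χ₈ (d.natAbs : ZMod 8) = 1 := by
        rw [χ₈_nat_eq_if_mod_eight, if_neg (by omega), if_pos (by omega)]
      rw [h6, one_pow]
  -- the odd part
  have e4 : jacobiSym d m = 1 := by
    refine jac_one d hm0 fun p hp hpm => h' p hp ?_ ?_
    · rintro rfl
      obtain ⟨c, hc⟩ := hm
      obtain ⟨b, hb⟩ := hpm
      omega
    · rw [e1]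
      have : (p : ℤ) ∣ (m : ℤ) := by exact_mod_cast hpm
      exact Dvd.dvd.neg_right (Dvd.dvd.mul_left this _)
  have e5 : jacobiSym (m : ℤ) d.natAbs = 1 := by
    have e6 : d = -(d.natAbs : ℤ) := by omega
    have e7 : χ₄ (m : ZMod 4) * jacobiSym (d.natAbs : ℤ) m = 1 := by
      rw [← jacobiSym.neg _ hm, ← e6]
      exact e4
    rcases Nat.odd_mod_four_iff.1 (Nat.odd_iff.1 hm) with h1m | h3m
    · rw [χ₄_nat_one_mod_four h1m, one_mul] at e7
      rw [jacobiSym.quadratic_reciprocity_one_mod_four h1m hodd]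
      exact e7
    · rw [χ₄_nat_three_mod_four h3m] at e7
      rw [jacobiSym.quadratic_reciprocity_three_mod_four h3m hc3]
      linarith
  rw [e3, e5] at h1
  norm_num at h1

section res

variable {K : Type} [Field K] [NumberField K]

lemma dvd_of_mem {p : ℕ} (hp : p.Prime) {v : HeightOneSpectrum (𝓞 K)}
    (hv : (p : 𝓞 K) ∈ v.asIdeal) {a : ℤ} (h : (a : 𝓞 K) ∈ v.asIdeal) : (p : ℤ) ∣ a := by
  by_contra ha
  have hco : IsCoprime (p : ℤ) a := (Nat.prime_iff_prime_int.1 hp).coprime_iff_not_dvd.2 ha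
  obtain ⟨s, t, hst⟩ := hco
  have h2 : ((s : 𝓞 K)) * (p : 𝓞 K) + (t : 𝓞 K) * (a : 𝓞 K) = 1 := by
    exact_mod_cast congrArg (Int.cast : ℤ → 𝓞 K) hst
  apply v.isPrime.ne_top
  rw [Ideal.eq_top_iff_one, ← h2]
  exact v.asIdeal.add_mem (v.asIdeal.mul_mem_left _ hv) (v.asIdeal.mul_mem_left _ h)

lemma absNorm_eq {p : ℕ} (hp : p.Prime) {v : HeightOneSpectrum (𝓞 K)}
    (hv : (p : 𝓞 K) ∈ v.asIdeal) (hN : (Ideal.absNorm v.asIdeal).Prime) :
    Ideal.absNorm v.asIdeal = p := by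
  have h2 : (Ideal.absNorm v.asIdeal : 𝓞 K) ∈ v.asIdeal := Ideal.absNorm_mem _
  have h3 := dvd_of_mem hp hv (a := (Ideal.absNorm v.asIdeal : ℤ)) (by exact_mod_cast h2)
  have h4 : p ∣ Ideal.absNorm v.asIdeal := by exact_mod_cast h3
  exact ((Nat.prime_dvd_prime_iff_eq hp hN).1 h4).symm

/-- residue degree one above an odd prime: `d` is a square modulo `p` -/
theorem jac_of_deg {p : ℕ} (hp : p.Prime) (hp2 : p ≠ 2) {v : HeightOneSpectrum (𝓞 K)}
    (hv : (p : 𝓞 K) ∈ v.asIdeal) (hN : (Ideal.absNorm v.asIdeal).Prime) {d : ℤ}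
    (hpd : ¬ (p : ℤ) ∣ d) {R : 𝓞 K} (hR : R ^ 2 = (d : 𝓞 K)) : jacobiSym d p = 1 := by
  classical
  haveI : Fact p.Prime := ⟨hp⟩
  haveI : v.asIdeal.IsMaximal := v.isMaximal
  letI := Ideal.Quotient.field v.asIdeal
  have hcard : Nat.card (𝓞 K ⧸ v.asIdeal) = p := absNorm_eq hp hv hN
  haveI hfin : Finite (𝓞 K ⧸ v.asIdeal) :=
    Nat.finite_of_card_ne_zero (by rw [hcard]; exact hp.ne_zero)
  letI : Fintype (𝓞 K ⧸ v.asIdeal) := Fintype.ofFinite _
  set q := Ideal.Quotient.mk v.asIdeal with hq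
  have hR0 : q R ≠ 0 := by
    intro h0
    rw [hq, Ideal.Quotient.eq_zero_iff_mem] at h0
    apply hpd
    apply dvd_of_mem hp hv
    rw [← hR, sq]
    exact v.asIdeal.mul_mem_left _ h0
  have hF : Fintype.card (𝓞 K ⧸ v.asIdeal) = p := by rw [← Nat.card_eq_fintype_card, hcard]
  have h1 : q R ^ (p - 1) = 1 := by
    rw [← hF]
    exact FiniteField.pow_card_sub_one_eq_one _ hR0
  have hpo : 2 * (p / 2) = p - 1 := by
    have := hp.eq_two_or_odd'.resolve_left hp2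
    obtain ⟨c, hc⟩ := this
    omega
  have h2 : (d ^ (p / 2) - 1 : ℤ) = (d ^ (p / 2) - 1 : ℤ) := rfl
  have h3 : (((d ^ (p / 2) - 1 : ℤ)) : 𝓞 K) ∈ v.asIdeal := by
    rw [← Ideal.Quotient.eq_zero_iff_mem, ← hq]
    push_cast
    rw [← hR, ← pow_mul, hpo, map_sub, map_pow, h1, map_one, sub_self]
  have h4 := dvd_of_mem hp hv h3
  rw [← ZMod.intCast_zmod_eq_zero_iff_dvd] at h4
  push_cast at h4
  rw [← jacobiSym.legendreSym.to_jacobiSym]
  have hd0 : ((d : ℤ) : ZMod p) ≠ 0 := by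
    rw [Ne, ZMod.intCast_zmod_eq_zero_iff_dvd]
    exact hpd
  rw [legendreSym.eq_one_iff p hd0, ZMod.euler_criterion p hd0]
  exact sub_eq_zero.1 h4

/-- residue degree one above an unramified `2`: `d = 1` mod `8` -/
theorem mod_eight {v : HeightOneSpectrum (𝓞 K)} (hv : ((2 : ℕ) : 𝓞 K) ∈ v.asIdeal)
    (hun : v.valuation K ((2 : ℕ) : K) = exp (-1 : ℤ)) (hN : (Ideal.absNorm v.asIdeal).Prime)
    {d : ℤ} (h4 : d % 4 = 1) {R : 𝓞 K} (hR : R ^ 2 = (d : 𝓞 K)) : d % 8 = 1 := by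
  classical
  set P := v.asIdeal with hP
  haveI := v.isPrime
  haveI : v.asIdeal.IsMaximal := v.isMaximal
  letI := Ideal.Quotient.field v.asIdeal
  have hcard : Nat.card (𝓞 K ⧸ v.asIdeal) = 2 := absNorm_eq Nat.prime_two hv hN
  haveI hfin : Finite (𝓞 K ⧸ v.asIdeal) := Nat.finite_of_card_ne_zero (by rw [hcard]; norm_num)
  letI : Fintype (𝓞 K ⧸ v.asIdeal) := Fintype.ofFinite _
  have hF : Fintype.card (𝓞 K ⧸ v.asIdeal) = 2 := by rw [← Nat.card_eq_fintype_card, hcard]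
  have hv2 : (2 : 𝓞 K) ∈ P := by exact_mod_cast hv
  -- two classes
  have hcl : ∀ x : 𝓞 K, x ∈ P ∨ x - 1 ∈ P := by
    intro x
    by_cases hx : Ideal.Quotient.mk v.asIdeal x = 0
    · left
      exact Ideal.Quotient.eq_zero_iff_mem.1 hx
    · right
      have h1 := FiniteField.pow_card_sub_one_eq_one _ hx
      rw [hF] at h1
      rw [hP, ← Ideal.Quotient.eq_zero_iff_mem, map_sub, map_one, sub_eq_zero]
      simpa using h1
  -- valuations and powers of the ideal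
  have hint : v.intValuation (2 : 𝓞 K) = exp (-1 : ℤ) := by
    have h1 := v.valuation_of_algebraMap (K := K) (2 : 𝓞 K)
    rw [← h1, ← hun]
    congr 1
  have h2n : (2 : 𝓞 K) ∉ P ^ 2 := by
    rw [hP, ← v.intValuation_le_pow_iff_mem, hint, exp_le_exp]
    norm_num
  have h4n : (4 : 𝓞 K) ∉ P ^ 3 := by
    rw [hP, ← v.intValuation_le_pow_iff_mem, show (4 : 𝓞 K) = 2 * 2 by norm_num, map_mul, hint,
      ← exp_add, exp_le_exp]
    norm_num
  have hspan : Ideal.span {(2 : 𝓞 K)} ⊔ P ^ 2 = P := by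
    have h1 := Ideal.eq_prime_pow_of_succ_lt_of_le (P := P) (I := Ideal.span {(2 : 𝓞 K)} ⊔ P ^ 2)
      v.ne_bot (i := 1) (lt_of_le_of_ne le_sup_right ?_) ?_
    · rw [h1, pow_one]
    · intro h
      apply h2n
      have h3 : (2 : 𝓞 K) ∈ Ideal.span {(2 : 𝓞 K)} ⊔ P ^ 2 :=
        (le_sup_left : _ ≤ Ideal.span {(2 : 𝓞 K)} ⊔ P ^ 2) (Ideal.mem_span_singleton_self _)
      rw [← h] at h3
      exact h3
    · rw [pow_one]
      refine sup_le ?_ (Ideal.pow_le_self two_ne_zero)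
      rw [Ideal.span_singleton_le_iff_mem]
      exact hv2
  have hRP : R ∉ P := by
    intro h
    have h1 := dvd_of_mem Nat.prime_two hv (a := d) (by
      rw [← hR, sq]
      exact P.mul_mem_left _ h)
    push_cast at h1
    omega
  have hR1 : R - 1 ∈ P := (hcl R).resolve_left hRP
  obtain ⟨s, hs, w, hw, hRw⟩ : ∃ s : ℤ, (s = 1 ∨ s = 3) ∧ ∃ w ∈ P ^ 2, R = s + w := by
    have h1 : R - 1 ∈ Ideal.span {(2 : 𝓞 K)} ⊔ P ^ 2 := by rw [hspan]; exact hR1
    obtain ⟨a, ha, w, hw, haw⟩ := Submodule.mem_sup.1 h1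
    obtain ⟨c, rfl⟩ := Ideal.mem_span_singleton'.1 ha
    rcases hcl c with hc | hc
    · refine ⟨1, Or.inl rfl, c * 2 + w, ?_, ?_⟩
      · refine (P ^ 2).add_mem ?_ hw
        rw [sq]
        exact Ideal.mul_mem_mul hc hv2
      · push_cast
        linear_combination -haw
    · refine ⟨3, Or.inr rfl, (c - 1) * 2 + w, ?_, ?_⟩
      · refine (P ^ 2).add_mem ?_ hw
        rw [sq]
        exact Ideal.mul_mem_mul hc hv2
      · push_cast
        linear_combination -haw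
  have h5 : ((d - s ^ 2 : ℤ) : 𝓞 K) ∈ P ^ 3 := by
    have e1 : ((d - s ^ 2 : ℤ) : 𝓞 K) = w * (2 * s + w) := by
      push_cast
      rw [← hR, hRw]
      ring
    rw [e1, pow_succ]
    exact Ideal.mul_mem_mul hw (P.add_mem (P.mul_mem_right _ hv2) (Ideal.pow_le_self two_ne_zero hw))
  by_contra h8
  apply h4n
  have h8m : (8 : 𝓞 K) ∈ P ^ 3 := by
    have : (8 : 𝓞 K) = 2 ^ 3 := by norm_num
    rw [this]
    exact Ideal.pow_mem_pow hv2 3
  obtain ⟨k, hk⟩ : ∃ k : ℤ, (4 : ℤ) = (d - s ^ 2) + 8 * k := by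
    rcases hs with rfl | rfl
    · exact ⟨(4 - (d - 1)) / 8, by omega⟩
    · exact ⟨(4 - (d - 9)) / 8, by omega⟩
  have h6 : (4 : 𝓞 K) = ((d - s ^ 2 : ℤ) : 𝓞 K) + 8 * ((k : ℤ) : 𝓞 K) := by
    exact_mod_cast congrArg (Int.cast : ℤ → 𝓞 K) hk
  rw [h6]
  exact (P ^ 3).add_mem h5 ((P ^ 3).mul_mem_right _ h8m)

end res

end Pool.Agent.R431.P
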