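import Mathlib

/-!
If a cubic over a prime field has no root, its discriminant is a square; an elliptic curve whose trace
of Frobenius at an odd prime is odd has a discriminant which is a square modulo this prime.
-/

set_option autoImplicit false

open WeierstrassCurve

namespace Pool.Agent.R431.P

theorem fixed_mem {l : ℕ} [Fact l.Prime] {L : Type} [Field L] [Algebra (ZMod l) L] (t : L)
    (h : t ^ l = t) : ∃ a : ZMod l, algebraMap (ZMod l) L a = t := by
  classical
  by_contra hno
  push_neg at hno
  have hl : 1 < l := (Fact.out : l.Prime).one_lt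
  have hp0 : (Polynomial.X ^ l - Polynomial.X : Polynomial L) ≠ 0 :=
    FiniteField.X_pow_card_sub_X_ne_zero L hl
  have hdeg : (Polynomial.X ^ l - Polynomial.X : Polynomial L).natDegree = l :=
    FiniteField.X_pow_card_sub_X_natDegree_eq L hl
  have hsub : insert t (Finset.univ.image (algebraMap (ZMod l) L)) ⊆
      (Polynomial.X ^ l - Polynomial.X : Polynomial L).roots.toFinset := by
    intro u hu
    rw [Multiset.mem_toFinset, Polynomial.mem_roots hp0, Polynomial.IsRoot.def, Polynomial.eval_sub,
      Polynomial.eval_pow, Polynomial.eval_X, sub_eq_zero]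
    rcases Finset.mem_insert.1 hu with rfl | hu
    · exact h
    · obtain ⟨a, -, rfl⟩ := Finset.mem_image.1 hu
      rw [← map_pow, ZMod.pow_card]
  have h1 := Finset.card_le_card hsub
  rw [Finset.card_insert_of_notMem, Finset.card_image_of_injective _
    (algebraMap (ZMod l) L).injective, Finset.card_univ, ZMod.card] at h1
  · have h2 := (Multiset.toFinset_card_le
      (Polynomial.X ^ l - Polynomial.X : Polynomial L).roots).trans (Polynomial.card_roots' _)
    rw [hdeg] at h2
    omega
  · intro hu
    obtain ⟨a, -, ha⟩ := Finset.mem_image.1 hu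
    exact hno a ha

/-- a cubic without roots in `F_l` has a discriminant that is a square -/
theorem sq_of_no_root {l : ℕ} [Fact l.Prime] (P : Cubic (ZMod l)) (ha : P.a ≠ 0)
    (hno : ∀ x : ZMod l, P.a * x ^ 3 + P.b * x ^ 2 + P.c * x + P.d ≠ 0) : IsSquare P.discr := by
  classical
  by_cases hD : P.discr = 0
  · rw [hD]
    exact ⟨0, by ring⟩
  let L := AlgebraicClosure (ZMod l)
  let φ := algebraMap (ZMod l) L
  haveI : CharP L l := charP_of_injective_algebraMap φ.injective l
  obtain ⟨x, y, z, h3⟩ := (Cubic.splits_iff_roots_eq_three (φ := φ) ha).1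
    (IsAlgClosed.splits _)
  have hdis := Cubic.discr_eq_prod_three_roots ha h3
  have hx : ∀ t : L, t ∈ ({x, y, z} : Multiset L) ↔
      φ P.a * t ^ 3 + φ P.b * t ^ 2 + φ P.c * t + φ P.d = 0 := by
    intro t
    rw [← h3, Cubic.mem_roots_iff (by
      intro h0
      have h1 := congrArg (fun q : Polynomial L => q.coeff 3) h0
      simp only [Cubic.coeff_eq_a, Polynomial.coeff_zero] at h1
      exact ha (φ.injective (h1.trans (map_zero φ).symm)))]
    rfl
  have hfr : ∀ t : L, t ∈ ({x, y, z} : Multiset L) → t ^ l ∈ ({x, y, z} : Multiset L) := by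
    intro t ht
    rw [hx] at ht ⊢
    have h1 := congrArg (frobenius L l) ht
    rw [map_zero] at h1
    rw [← h1]
    simp only [map_add, map_mul, frobenius_def, ← map_pow, ZMod.pow_card]
    simp only [map_pow, ← pow_mul, mul_comm l]
  have hne : ∀ t : L, t ∈ ({x, y, z} : Multiset L) → t ^ l ≠ t := by
    intro t ht hf
    obtain ⟨a, rfl⟩ := fixed_mem t hf
    rw [hx] at ht
    refine hno a (φ.injective ?_)
    rw [map_zero, ← ht]
    simp only [map_add, map_mul, map_pow]
    rfl
  have hD' : φ P.discr ≠ 0 := fun h => hD (φ.injective (h.trans (map_zero φ).symm))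
  rw [hdis] at hD'
  have hxy : x ≠ y := fun h => hD' (by rw [h]; ring)
  have hxz : x ≠ z := fun h => hD' (by rw [h]; ring)
  have hyz : y ≠ z := fun h => hD' (by rw [h]; ring)
  have mx : x ∈ ({x, y, z} : Multiset L) := by simp
  have my : y ∈ ({x, y, z} : Multiset L) := by simp
  have mz : z ∈ ({x, y, z} : Multiset L) := by simp
  have inj : ∀ s t : L, s ^ l = t ^ l → s = t := fun s t h => frobenius_inj L l h
  have fx := hfr x mx
  have fy := hfr y my
  have fz := hfr z mz
  simp only [Multiset.insert_eq_cons, Multiset.mem_cons, Multiset.mem_singleton] at fx fy fz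
  have key : ((x - y) * (x - z) * (y - z)) ^ l = (x - y) * (x - z) * (y - z) := by
    rw [mul_pow, mul_pow, sub_pow_char, sub_pow_char, sub_pow_char]
    rcases fx with fx | fx | fx
    · exact absurd fx (hne x mx)
    · rcases fy with fy | fy | fy
      · rcases fz with fz | fz | fz
        · exact absurd (inj _ _ (fy.trans fz.symm)) hyz
        · exact absurd (inj _ _ (fx.trans fz.symm)) hxz
        · exact absurd fz (hne z mz)
      · exact absurd fy (hne y my)
      · rcases fz with fz | fz | fz
        · rw [fx, fy, fz]; ring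
        · exact absurd (inj _ _ (fx.trans fz.symm)) hxz
        · exact absurd fz (hne z mz)
    · rcases fy with fy | fy | fy
      · rcases fz with fz | fz | fz
        · exact absurd (inj _ _ (fy.trans fz.symm)) hyz
        · rw [fx, fy, fz]; ring
        · exact absurd fz (hne z mz)
      · exact absurd fy (hne y my)
      · exact absurd (inj _ _ (fx.trans fy.symm)) hxy
  obtain ⟨s, hs⟩ := fixed_mem _ key
  refine ⟨P.a * P.a * s, φ.injective ?_⟩
  rw [hdis, map_mul, map_mul, map_mul, show φ s = (x - y) * (x - z) * (y - z) from hs]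
  ring

/-- the number of affine points plus one is the order of the group of points -/
theorem card_point {F : Type} [Field F] (V : WeierstrassCurve F) [V.IsElliptic] [Finite F] :
    Nat.card V.toAffine.Point = Nat.card {P : F × F // V.toAffine.Equation P.1 P.2} + 1 := by
  classical
  let e : V.toAffine.Point ≃ Option {P : F × F // V.toAffine.Equation P.1 P.2} :=
    { toFun := fun P => match P with
        | .zero => none
        | .some x y h => some ⟨(x, y), h.1⟩
      invFun := fun P => match P with
        | none => .zero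
        | some q => .some q.1.1 q.1.2 (Affine.equation_iff_nonsingular.1 q.2)
      left_inv := fun P => by rcases P with _ | _ <;> rfl
      right_inv := fun P => by rcases P with _ | ⟨⟨a, b⟩, h⟩ <;> rfl }
  rw [Nat.card_congr e]
  exact Finite.card_option

/-- an odd trace of Frobenius at an odd prime makes the discriminant a square -/
theorem sq_disc (W : WeierstrassCurve ℤ) {l : ℕ} [Fact l.Prime] (h2 : l ≠ 2)
    (hΔ : ¬ (l : ℤ) ∣ W.Δ) (hodd : Odd ((l : ℤ) - Nat.card {P : ZMod l × ZMod l //
      (W.map (Int.castRingHom (ZMod l))).toAffine.Equation P.1 P.2})) :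
    IsSquare ((W.Δ : ℤ) : ZMod l) := by
  classical
  set V := W.map (Int.castRingHom (ZMod l)) with hV
  have hVΔ : V.Δ = ((W.Δ : ℤ) : ZMod l) := by rw [hV, map_Δ]; rfl
  have h0 : V.Δ ≠ 0 := by
    rw [hVΔ, Ne, ZMod.intCast_zmod_eq_zero_iff_dvd]
    exact hΔ
  haveI : V.IsElliptic := (isElliptic_iff V).2 (isUnit_iff_ne_zero.2 h0)
  have h2' : (2 : ZMod l) ≠ 0 := by
    intro h
    have h1 : (((2 : ℕ)) : ZMod l) = 0 := by exact_mod_cast h
    rw [ZMod.natCast_eq_zero_iff] at h1
    exact h2 ((Nat.prime_dvd_prime_iff_eq Fact.out Nat.prime_two).1 h1)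
  have hlo : Odd l := (Fact.out : l.Prime).odd_of_ne_two h2
  have hev : ¬ 2 ∣ Nat.card V.toAffine.Point := by
    rw [card_point]
    obtain ⟨a, ha⟩ := hodd
    obtain ⟨b, hb⟩ := hlo
    omega
  have hno : ∀ x : ZMod l, V.twoTorsionPolynomial.a * x ^ 3 + V.twoTorsionPolynomial.b * x ^ 2 +
      V.twoTorsionPolynomial.c * x + V.twoTorsionPolynomial.d ≠ 0 := by
    intro x hx
    apply hev
    set y : ZMod l := -(V.a₁ * x + V.a₃) / 2 with hy
    have hy2 : 2 * y = -(V.a₁ * x + V.a₃) := by rw [hy]; field_simp
    have heq : V.toAffine.Equation x y := by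
      rw [Affine.equation_iff]
      have h4 : (4 : ZMod l) ≠ 0 := by
        have : (4 : ZMod l) = 2 * 2 := by norm_num
        rw [this]
        exact mul_ne_zero h2' h2'
      apply mul_left_cancel₀ h4
      simp only [twoTorsionPolynomial, b₂, b₄, b₆] at hx
      linear_combination (2 * y + (V.a₁ * x + V.a₃)) * hy2 - hx
    have hns := (Affine.equation_iff_nonsingular (W := V.toAffine)).1 heq
    set T : V.toAffine.Point := .some x y hns with hT
    have hneg : -T = T := by
      rw [hT, Affine.Point.neg_some]
      congr 1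
      rw [Affine.negY]
      linear_combination -hy2
    have hT0 : T ≠ 0 := by rw [hT]; exact Affine.Point.some_ne_zero _
    have hord : addOrderOf T = 2 := by
      apply addOrderOf_eq_prime _ hT0
      rw [two_nsmul]
      nth_rewrite 2 [← hneg]
      exact add_neg_cancel T
    rw [← hord]
    exact addOrderOf_dvd_natCard T
  have ha : V.twoTorsionPolynomial.a ≠ 0 := by
    show (4 : ZMod l) ≠ 0
    have : (4 : ZMod l) = 2 * 2 := by norm_num
    rw [this]
    exact mul_ne_zero h2' h2'
  have hsq := sq_of_no_root V.twoTorsionPolynomial ha hno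
  rw [twoTorsionPolynomial_discr, hVΔ] at hsq
  obtain ⟨s, hs⟩ := hsq
  refine ⟨s / 4, ?_⟩
  have h4 : (4 : ZMod l) ≠ 0 := by
    have : (4 : ZMod l) = 2 * 2 := by norm_num
    rw [this]
    exact mul_ne_zero h2' h2'
  field_simp
  linear_combination hs

end Pool.Agent.R431.P
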