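import Mathlib

/-!
Quadratic characters of the Galois group of a number field and square roots of squarefree integers.
-/

set_option autoImplicit false

open NumberField IsDedekindDomain WithZero

namespace Pool.Agent.R431.P

section gal

variable {K : Type} [Field K] [NumberField K] [IsGalois ℚ K]

theorem exists_sum_ne (χ : Gal(K/ℚ) →* ℤˣ) :
    ∃ x : K, ∑ g : Gal(K/ℚ), (((χ g : ℤˣ) : ℤ) : K) * g x ≠ 0 := by
  classical
  by_contra h
  push Not at h
  have hli := linearIndependent_monoidHom K K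
  have hinj : Function.Injective (fun g : Gal(K/ℚ) => ((g : K ≃+* K) : K →* K)) := by
    intro g h hgh
    ext x
    exact congrArg (fun f : K →* K => f x) hgh
  have h2 := hli.comp _ hinj
  rw [Fintype.linearIndependent_iff] at h2
  have h3 := h2 (fun g => (((χ g : ℤˣ) : ℤ) : K)) (by
    funext x
    rw [Finset.sum_apply]
    exact h x) 1
  rw [map_one] at h3
  norm_num at h3

theorem exists_sqrt_rat (χ : Gal(K/ℚ) →* ℤˣ) :
    ∃ (q : ℚ) (y : K), y ≠ 0 ∧ y ^ 2 = algebraMap ℚ K q ∧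
      ∀ g : Gal(K/ℚ), g y = (((χ g : ℤˣ) : ℤ) : K) * y := by
  classical
  obtain ⟨x, hx⟩ := exists_sum_ne χ
  set y := ∑ g : Gal(K/ℚ), (((χ g : ℤˣ) : ℤ) : K) * g x with hy
  have hsq : ∀ g : Gal(K/ℚ), (((χ g : ℤˣ) : ℤ) : K) * (((χ g : ℤˣ) : ℤ) : K) = 1 := by
    intro g
    rw [← Int.cast_mul, ← Units.val_mul, Int.units_mul_self]
    norm_num
  have hg : ∀ g : Gal(K/ℚ), g y = (((χ g : ℤˣ) : ℤ) : K) * y := by
    intro g
    rw [hy, map_sum, Finset.mul_sum]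
    rw [← Equiv.sum_comp (Equiv.mulLeft g) (fun h : Gal(K/ℚ) =>
      (((χ g : ℤˣ) : ℤ) : K) * ((((χ h : ℤˣ) : ℤ) : K) * h x))]
    refine Finset.sum_congr rfl fun h _ => ?_
    rw [Equiv.coe_mulLeft, map_mul, map_intCast, map_mul, Units.val_mul, Int.cast_mul,
      AlgEquiv.mul_apply, ← mul_assoc, ← mul_assoc, hsq, one_mul]
  have h2 : ∀ g : Gal(K/ℚ), g (y ^ 2) = y ^ 2 := by
    intro g
    rw [map_pow, hg, mul_pow, sq (((χ g : ℤˣ) : ℤ) : K), hsq, one_mul]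
  obtain ⟨q, hq⟩ := (IsGalois.mem_range_algebraMap_iff_fixed (F := ℚ) (E := K) (y ^ 2)).2 h2
  exact ⟨q, y, hx, hq.symm, hg⟩

/-- a quadratic character of the Galois group of `K` is the character of `√d`, `d` squarefree -/
theorem exists_sqrt (χ : Gal(K/ℚ) →* ℤˣ) :
    ∃ (d : ℤ) (r : K), Squarefree d ∧ r ^ 2 = (d : K) ∧
      ∀ g : Gal(K/ℚ), g r = (((χ g : ℤˣ) : ℤ) : K) * r := by
  obtain ⟨q, y, hy0, hy, hg⟩ := exists_sqrt_rat χ
  have hq0 : q ≠ 0 := by
    rintro rfl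
    rw [map_zero] at hy
    exact hy0 (pow_eq_zero_iff (two_ne_zero) |>.1 hy)
  have hn0 : q.num * q.den ≠ 0 := mul_ne_zero (Rat.num_ne_zero.2 hq0) (by exact_mod_cast q.den_nz)
  obtain ⟨a, b, hab, hsf⟩ := Nat.sq_mul_squarefree (q.num * q.den).natAbs
  have hb0 : b ≠ 0 := by
    rintro rfl
    rw [zero_pow two_ne_zero, zero_mul] at hab
    exact hn0 (Int.natAbs_eq_zero.1 hab.symm)
  obtain ⟨s, hs, hs2⟩ : ∃ s : ℤ, (s = 1 ∨ s = -1) ∧ q.num * q.den = s * (b ^ 2 * a : ℕ) := by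
    rcases Int.natAbs_eq (q.num * q.den) with h | h
    · exact ⟨1, Or.inl rfl, by rw [hab, one_mul]; exact h⟩
    · exact ⟨-1, Or.inr rfl, by rw [hab, neg_one_mul]; exact h⟩
  have hbK : (b : K) ≠ 0 := by exact_mod_cast hb0
  refine ⟨s * a, y * q.den / b, ?_, ?_, ?_⟩
  · have h1 : Squarefree (a : ℤ) := Int.squarefree_natCast.2 hsf
    rcases hs with rfl | rfl
    · rwa [one_mul]
    · rw [neg_one_mul]
      exact (Associated.neg_left (Associated.refl (a : ℤ))).squarefree_iff.2 h1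
  · rw [div_pow, mul_pow, hy]
    have h1 : (algebraMap ℚ K q) * (q.den : K) = (q.num : K) := by
      have h2 : q * (q.den : ℚ) = q.num := Rat.mul_den_eq_num q
      have h3 := congrArg (algebraMap ℚ K) h2
      rw [map_mul, map_natCast, map_intCast] at h3
      exact h3
    have h4 : ((q.num * q.den : ℤ) : K) = ((s * (b ^ 2 * a : ℕ) : ℤ) : K) := by rw [hs2]
    push_cast at h4
    rw [div_eq_iff (pow_ne_zero 2 hbK)]
    push_cast
    linear_combination (q.den : K) * h1 + h4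
  · intro g
    rw [map_div₀, map_mul, hg, map_natCast, map_natCast]
    ring

end gal

section abs

variable {K : Type} [Field K] [NumberField K] [IsGalois ℚ K]

/-- a quadratic character of the absolute Galois group which is trivial on `K` comes from `√d` in
`K` -/
theorem exists_sqrt_abs (Ω : Type) [Field Ω] [Algebra ℚ Ω] [Normal ℚ Ω] (e : K →+* Ω)
    (χ : (Ω ≃ₐ[ℚ] Ω) →* ℤˣ) (hχ : ∀ σ : Ω ≃ₐ[ℚ] Ω, (∀ x : K, σ (e x) = e x) → χ σ = 1) :
    ∃ (d : ℤ) (r : K), Squarefree d ∧ r ^ 2 = (d : K) ∧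
      ∀ σ : Ω ≃ₐ[ℚ] Ω, σ (e r) = (((χ σ : ℤˣ) : ℤ) : Ω) * e r := by
  letI : Algebra K Ω := e.toAlgebra
  haveI : IsScalarTower ℚ K Ω := IsScalarTower.of_algebraMap_eq' (Subsingleton.elim _ _)
  have hsurj : Function.Surjective (AlgEquiv.restrictNormalHom (F := ℚ) (K₁ := Ω) K) :=
    AlgEquiv.restrictNormalHom_surjective Ω
  have hres : ∀ (σ : Ω ≃ₐ[ℚ] Ω) (x : K), e (AlgEquiv.restrictNormalHom (F := ℚ) (K₁ := Ω) K σ x) = σ (e x) :=
    fun σ x => AlgEquiv.restrictNormal_commutes σ K x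
  have hker : (AlgEquiv.restrictNormalHom (F := ℚ) (K₁ := Ω) K).ker ≤ χ.ker := by
    intro σ hσ
    rw [MonoidHom.mem_ker] at hσ ⊢
    refine hχ σ fun x => ?_
    rw [← hres, hσ]
    rfl
  let χK : Gal(K/ℚ) →* ℤˣ :=
    (AlgEquiv.restrictNormalHom (F := ℚ) (K₁ := Ω) K).liftOfSurjective hsurj ⟨χ, hker⟩
  have hK : ∀ σ, χK (AlgEquiv.restrictNormalHom (F := ℚ) (K₁ := Ω) K σ) = χ σ := fun σ =>
    MonoidHom.liftOfRightInverse_comp_apply _ _ _ _ σ
  obtain ⟨d, r, h1, h2, h3⟩ := exists_sqrt χK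
  refine ⟨d, r, h1, h2, fun σ => ?_⟩
  rw [← hres, h3, hK, map_mul, map_intCast]

end abs

section ram

variable {K : Type} [Field K] [NumberField K]

lemma exists_place {p : ℕ} (hp : p.Prime) : ∃ v : HeightOneSpectrum (𝓞 K), (p : 𝓞 K) ∈ v.asIdeal := by
  have h1 : ¬ IsUnit (p : 𝓞 K) := by
    intro h
    have h3 : IsUnit (algebraMap ℤ (𝓞 K) (p : ℤ)) := by
      rw [map_natCast]
      exact h
    have h4 : IsUnit (p : ℤ) := isUnit_of_map_unit (algebraMap ℤ (𝓞 K)) _ h3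
    exact (Nat.prime_iff_prime_int.1 hp).not_isUnit h4
  obtain ⟨M, hM, hpM⟩ := exists_max_ideal_of_mem_nonunits (mem_nonunits_iff.2 h1)
  refine ⟨⟨M, hM.isPrime, ?_⟩, hpM⟩
  rintro rfl
  rw [Ideal.mem_bot] at hpM
  have : p = 0 := by exact_mod_cast hpM
  exact hp.ne_zero this

lemma val_int_le (v : HeightOneSpectrum (𝓞 K)) (a : ℤ) : v.valuation K (a : K) ≤ 1 := by
  rw [← map_intCast (algebraMap (𝓞 K) K) a]
  exact v.valuation_le_one (K := K) (a : 𝓞 K)

/-- an integer prime to `p` is a unit above `p` -/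
lemma val_coprime {p : ℕ} (hp : p.Prime) {v : HeightOneSpectrum (𝓞 K)}
    (hv : (p : 𝓞 K) ∈ v.asIdeal) {a : ℤ} (ha : ¬ (p : ℤ) ∣ a) : v.valuation K (a : K) = 1 := by
  have h1 : ((a : 𝓞 K)) ∉ v.asIdeal := by
    intro h
    have hco : IsCoprime (p : ℤ) a := (Nat.prime_iff_prime_int.1 hp).coprime_iff_not_dvd.2 ha
    obtain ⟨s, t, hst⟩ := hco
    have h2 : ((s : 𝓞 K)) * (p : 𝓞 K) + (t : 𝓞 K) * (a : 𝓞 K) = 1 := by exact_mod_cast congrArg (Int.cast : ℤ → 𝓞 K) hst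
    apply v.isPrime.ne_top
    rw [Ideal.eq_top_iff_one, ← h2]
    exact v.asIdeal.add_mem (v.asIdeal.mul_mem_left _ hv) (v.asIdeal.mul_mem_left _ h)
  have h2 := (v.valuation_lt_one_iff_mem (K := K) (a : 𝓞 K)).not.2 h1
  refine le_antisymm (val_int_le v a) ?_
  rw [← map_intCast (algebraMap (𝓞 K) K) a]
  exact not_lt.1 h2

lemma exp_sq_ne {x : WithZero (Multiplicative ℤ)} (h : x * x = exp (-1 : ℤ)) : False := by
  have hx : x ≠ 0 := by
    rintro rfl
    rw [mul_zero] at h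
    exact exp_ne_zero h.symm
  obtain ⟨k, rfl⟩ : ∃ k : ℤ, exp k = x := ⟨log x, exp_log hx⟩
  rw [← exp_add, exp_inj] at h
  omega

/-- `√d` in a field unramified at `p`: `p ∤ d` -/
theorem not_dvd {p : ℕ} (hp : p.Prime) {v : HeightOneSpectrum (𝓞 K)}
    (hv : (p : 𝓞 K) ∈ v.asIdeal) (hun : v.valuation K (p : K) = exp (-1 : ℤ)) {d : ℤ}
    (hd : Squarefree d) {r : K} (hr : r ^ 2 = (d : K)) : ¬ (p : ℤ) ∣ d := by
  rintro ⟨d', rfl⟩
  have hd' : ¬ (p : ℤ) ∣ d' := by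
    rintro ⟨d'', rfl⟩
    have h1 := hd (p : ℤ) ⟨d'', by ring⟩
    exact (Nat.prime_iff_prime_int.1 hp).not_isUnit h1
  have h1 := congrArg (v.valuation K) hr
  push_cast at h1
  rw [map_pow, map_mul, hun, val_coprime hp hv hd', mul_one, sq] at h1
  exact exp_sq_ne h1

/-- `√d` in a field unramified at `2`: `d = 1` mod `4` -/
theorem mod_four {v : HeightOneSpectrum (𝓞 K)}
    (hv : ((2 : ℕ) : 𝓞 K) ∈ v.asIdeal) (hun : v.valuation K ((2 : ℕ) : K) = exp (-1 : ℤ)) {d : ℤ}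
    (hd : Squarefree d) {r : K} (hr : r ^ 2 = (d : K)) : d % 4 = 1 := by
  have h2 := not_dvd Nat.prime_two hv hun hd hr
  by_contra h4
  obtain ⟨c, hc⟩ : ∃ c : ℤ, d = 4 * c + 3 := ⟨d / 4, by push_cast at h2; omega⟩
  have hprod : (r - 1) * (r - 1 + 2) = (2 : ℕ) * ((2 * c + 1 : ℤ) : K) := by
    have h3 : (d : K) = 4 * c + 3 := by rw [hc]; push_cast; ring
    push_cast
    linear_combination hr + h3
  have hval := congrArg (v.valuation K) hprod
  rw [map_mul, map_mul, hun, val_coprime Nat.prime_two hv (by push_cast; omega), mul_one] at hval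
  have h2v : v.valuation K (2 : K) = exp (-1 : ℤ) := by exact_mod_cast hun
  by_cases hx : v.valuation K (r - 1) ≤ exp (-1 : ℤ)
  · have h3 : v.valuation K (r - 1 + 2) ≤ exp (-1 : ℤ) :=
      (Valuation.map_add _ _ _).trans (max_le hx h2v.le)
    have h4 : v.valuation K (r - 1) * v.valuation K (r - 1 + 2) ≤ exp (-1 : ℤ) * exp (-1 : ℤ) :=
      mul_le_mul' hx h3
    rw [hval, ← exp_add, exp_le_exp] at h4
    omega
  · have h3 : v.valuation K (r - 1 + 2) = v.valuation K (r - 1) := by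
      apply Valuation.map_add_eq_of_lt_left
      rw [h2v]
      exact not_le.1 hx
    rw [h3] at hval
    exact exp_sq_ne hval

end ram

end Pool.Agent.R431.P
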